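import Mathlib
import Pool.Agent.Helper72.HD
import Pool.Agent.Helper72.HY8

/-!
The integral homology of all smooth fibres of the last row of products of elementary
symplectic matrices of size four.
-/

namespace Pool.Agent.Results.MP_d40204_gt.FibreHomology

open Pool.Agent.Helper72.HD

theorem result : ∀ K : ℕ, 1 ≤ K → ∀ a : Fin 4 → ℂ, (fibre K a).Nonempty → IsSmooth (fibre K a) →
    ∀ n : ℕ, (n ∈ degrees (level K a) → Nonempty (Hom (fibre K a) n ≃ₗ[ℤ] ℤ)) ∧
      (n ∉ degrees (level K a) → Subsingleton (Hom (fibre K a) n)) :=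
  fun _ hK a hne hs n => Pool.Agent.Helper72.HY.main hK a hne hs n

end Pool.Agent.Results.MP_d40204_gt.FibreHomology
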